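import Pool.Agent.Q255.TQ.Fin
import Pool.Agent.Q255.TQ.Stm2
import Pool.Agent.Q255.TQ.Stm3
import Pool.Agent.Q210.TQ.PVI
import Pool.Agent.Q210.TQ.HBD
import Pool.Agent.Q210.TQ.SQM
import Pool.Agent.Q148.TQ.RED
import Pool.Agent.Q148.TQ.TWO
import Pool.Agent.Q148.TQ.KRM
import Pool.Agent.Q148.TQ.VP
import Pool.Agent.Q208.TQ.Sum
import Pool.Agent.Q208.TQ.Cnt
import Pool.Agent.Q208.TQ.Bbu
import Pool.Agent.Q208.TQ.Mmb
import Pool.Agent.Q251.TQ.Cl8
import Pool.Agent.Q251.TQ.Bbl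
import Pool.Agent.Q251.TQ.Dgm
import Pool.Agent.Q153.FM.Fdd
import Pool.Agent.Q153.FM.Lim
import Pool.Agent.Q153.FM.Rep
import Pool.Agent.Q38.TQ.Lsk
import Pool.Agent.Q150.TQ.AFE
import Pool.Agent.Q275.TQ.HH
import Pool.Agent.Q275.TQ.Q1M
import Pool.Agent.Q26.TQ.Lov

set_option autoImplicit false

/-!
# All moments of quadratic L-functions at the central point for almost every twist

For a fundamental discriminant `D = ε n ≠ 1` one has `L(1/2, χ_D) = ∑ χ_D(m)/√m V(m/√|D|)` with an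
explicit rapidly decreasing function `V`. Let `f` be a completely multiplicative function with
independent fair signs at the primes, and put `f(m) χ_D(m)` in place of `χ_D(m)`. For almost every
`f` all moments of these numbers over the fundamental discriminants of one sign with `|D| ≤ X`
have asymptotic formulas with remainder `O(X^(1/2+δ))`; for `k = 1` the main term is the one of
the conjecture.
-/

namespace Pool.Agent.Results.MP_ea46f5_nt.AlmostEveryTwist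

open Finset Filter Topology MeasureTheory

noncomputable section

/-! ### the objects of the problem -/

/-- `(D/2)` for a fundamental discriminant `D`: `1`, `-1`, `0` for `D ≡ 1`, `5` modulo `8`,
`D` even -/
def kr2 (D : ℤ) : ℤ := if D % 8 = 1 then 1 else if D % 8 = 5 then -1 else 0

/-- the Kronecker symbol `(D/n)`, `n ≥ 1`, for a fundamental discriminant `D` -/
def kron (D : ℤ) (n : ℕ) : ℤ :=
  kr2 D ^ (n.factorization 2) * jacobiSym D (n / 2 ^ (n.factorization 2))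

/-- fundamental discriminants (with `1`) -/
def IsFund (D : ℤ) : Prop :=
  (D % 4 = 1 ∧ Squarefree D) ∨
    ∃ m : ℤ, D = 4 * m ∧ (m % 4 = 2 ∨ m % 4 = 3) ∧ Squarefree m

/-- `L(1/2, χ_D)`, the limit of the partial sums of `∑ (D/n) n^{-1/2}` -/
def LHalf (D : ℤ) : ℝ :=
  limUnder atTop (fun N : ℕ => ∑ n ∈ Icc 1 N, (kron D n : ℝ) / Real.sqrt n)

open Classical in
/-- the `n ≤ X` for which `ε n` is a fundamental discriminant -/
def family (ε : ℤ) (X : ℕ) : Finset ℕ := (Icc 1 X).filter (fun n : ℕ => IsFund (ε * (n : ℤ)))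

/-- `0` for `+`, `1` for `-` -/
def par (ε : ℤ) : ℕ := if ε = 1 then 0 else 1

/-- `V_a(x) = 2/(π^{-s/2} Γ(s/2)) ∫_{x²}^∞ t^{a/2-3/4} e^{-πt} dt`, `s = a + 1/2` -/
def V (a : ℕ) (x : ℝ) : ℝ :=
  2 / (Real.pi ^ (-((1 / 2 + (a : ℝ)) / 2)) * Real.Gamma ((1 / 2 + (a : ℝ)) / 2)) *
    ∫ t in Set.Ioi (x ^ 2), t ^ ((a : ℝ) / 2 - 3 / 4) * Real.exp (-(Real.pi * t))

/-- `L_f(D) = ∑_m f(m) (D/m) m^{-1/2} V_a(m/√|D|)`, `D = ε n` -/
def central (ε : ℤ) (f : ℕ → ℝ) (n : ℕ) : ℝ :=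
  ∑' m : ℕ, f m * (kron (ε * (n : ℤ)) m : ℝ) / Real.sqrt m * V (par ε) ((m : ℝ) / Real.sqrt n)

/-- `∑_{m ≤ N} f(m) (D/m) m^{-1/2}`, `D = ε n` -/
def truncated (ε : ℤ) (N : ℕ) (f : ℕ → ℝ) (n : ℕ) : ℝ :=
  ∑ m ∈ Icc 1 N, f m * (kron (ε * (n : ℤ)) m : ℝ) / Real.sqrt m

/-! ### the main terms -/

/-- `∏_{p | l} p/(p+1)` -/
def h (l : ℕ) : ℝ := ∏ p ∈ l.primeFactors, ((p : ℝ) / (p + 1))

/-- the `k`-tuples of integers of `[1, N]` whose product is a square -/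
def squareTuples (k N : ℕ) : Finset (Fin k → ℕ) :=
  (Fintype.piFinset fun _ => Icc 1 N).filter (fun t => IsSquare (∏ i, t i))

/-- `(3/π²) ∑_t h(t_1⋯t_k) (t_1⋯t_k)^{-1/2} ∫_0^X V_a(t_1/√x)⋯V_a(t_k/√x) dx` -/
def mainTerm (ε : ℤ) (k X : ℕ) : ℝ :=
  3 / Real.pi ^ 2 * ∑ t ∈ squareTuples k X,
    h (∏ i, t i) / Real.sqrt ((∏ i, t i : ℕ) : ℝ) *
      ∫ x in Set.Ioc (0 : ℝ) X, ∏ i, V (par ε) ((t i : ℝ) / Real.sqrt x)

/-- `B_k(N) = ∑_t h(t_1⋯t_k) (t_1⋯t_k)^{-1/2}` -/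
def B (k N : ℕ) : ℝ :=
  ∑ t ∈ squareTuples k N, h (∏ i, t i) / Real.sqrt ((∏ i, t i : ℕ) : ℝ)

/-- `Γ'/Γ ((1/2 + a)/2) - log π` -/
def lam (a : ℕ) : ℝ :=
  deriv Real.Gamma ((1 / 2 + (a : ℝ)) / 2) / Real.Gamma ((1 / 2 + (a : ℝ)) / 2) -
    Real.log Real.pi

/-- `A_1(0) = ∏_p (1 - 1/(p(p+1)))` -/
def P1 : ℝ := ∏' p : Nat.Primes, (1 - 1 / (((p : ℕ) : ℝ) * (((p : ℕ) : ℝ) + 1)))

/-- `A_1'(0)/(2 A_1(0)) = ∑_p log p/(p² + p - 1)` -/
def Lp : ℝ := ∑' p : Nat.Primes,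
  Real.log ((p : ℕ) : ℝ) / (((p : ℕ) : ℝ) ^ 2 + ((p : ℕ) : ℝ) - 1)

/-- the polynomial `Q_±(1, x)` of the conjecture; `a = 0` for `+`, `a = 1` for `-` -/
def Q1 (a : ℕ) (x : ℝ) : ℝ :=
  P1 * ((x + lam a) / 2 + 2 * Real.eulerMascheroniConstant + 2 * Lp)

/-! ### the random function -/

/-- independent fair coins -/
def coins : Measure (ℕ → Bool) :=
  Measure.infinitePi fun _ : ℕ => (PMF.bernoulli (1 / 2) (by norm_num)).toMeasure

/-- the completely multiplicative function with the value `1` or `-1` at the prime `p` according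
to `ω p` -/
def chi (ω : ℕ → Bool) (n : ℕ) : ℝ :=
  ∏ p ∈ n.primeFactors, (if ω p = true then 1 else -1) ^ n.factorization p

/-- **The law of the moments** for a function `f`: all moments, uniformly in `X`, with a
square root remainder; for the central values and for all truncated sums of length `N ≤ X^A` -/
def MomentLaw (f : ℕ → ℝ) : Prop :=
  ∀ k A : ℕ, 1 ≤ k → ∀ δ : ℝ, 0 < δ → ∃ C : ℝ, ∀ ε : ℤ, (ε = 1 ∨ ε = -1) → ∀ X : ℕ, 1 ≤ X →
    |∑ n ∈ family ε X, central ε f n ^ k - mainTerm ε k X| ≤ C * (X : ℝ) ^ (1 / 2 + δ) ∧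
    ∀ N : ℕ, 1 ≤ N → N ≤ X ^ A →
      |∑ n ∈ family ε X, truncated ε N f n ^ k - 3 / Real.pi ^ 2 * X * B k N| ≤
        C * (X : ℝ) ^ (1 / 2 + δ)

lemma ch_eq (ω : ℕ → Bool) (n : ℕ) : Pool.Agent.Q163.GC.ch ω n = chi ω n := by
  unfold Pool.Agent.Q163.GC.ch chi Pool.Agent.Q163.RP.mult Pool.Agent.Q163.RP.sg
    Pool.Agent.Q163.RX.es Pool.Agent.Q163.RP.sgn
  refine Finset.prod_congr rfl fun p _ => ?_
  rw [if_pos (Set.mem_univ p)]

lemma law_of {f : ℕ → ℝ} (hf : Pool.Agent.Q255.TQ.Law f) : MomentLaw f := hf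

open Pool.Agent.Q255.TQ in
/-- **All moments of quadratic L-functions at the central point for almost every twist.** -/
theorem result :
    -- (0) for `f = 1` the central values are the numbers `L(1/2, χ_D)`
    (∀ ε : ℤ, (ε = 1 ∨ ε = -1) → ∀ n : ℕ, 2 ≤ n → IsFund (ε * (n : ℤ)) →
      Tendsto (fun N : ℕ => ∑ m ∈ Icc 1 N, (kron (ε * (n : ℤ)) m : ℝ) / Real.sqrt m) atTop
        (𝓝 (LHalf (ε * (n : ℤ)))) ∧ central ε (fun _ => 1) n = LHalf (ε * (n : ℤ))) ∧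
    -- (1) almost every twist and all its finite modifications
    (∀ᵐ ω ∂coins, ∀ ω' : ℕ → Bool, {p | ω' p ≠ ω p}.Finite → MomentLaw (chi ω')) ∧
    -- (2) the order of magnitude of the main terms
    (∀ k : ℕ, 1 ≤ k → ∃ c C : ℝ, 0 < c ∧ 0 < C ∧
      (∀ ε : ℤ, (ε = 1 ∨ ε = -1) → ∀ X : ℕ, 16 ≤ X →
        c * X * Real.log X ^ (k * (k + 1) / 2) ≤ mainTerm ε k X ∧
        mainTerm ε k X ≤ C * X * Real.log X ^ (k * (k + 1) / 2)) ∧
      (∀ N : ℕ, 2 ≤ N → c * Real.log N ^ (k * (k + 1) / 2) ≤ B k N ∧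
        B k N ≤ C * Real.log N ^ (k * (k + 1) / 2))) ∧
    -- (3) for `k = 1` the main term is the one of the conjecture
    (∃ C : ℝ, ∀ ε : ℤ, (ε = 1 ∨ ε = -1) → ∀ X : ℕ, 1 ≤ X →
      |mainTerm ε 1 X - 3 / Real.pi ^ 2 * ∫ t in (1 : ℝ)..X, Q1 (par ε) (Real.log t)| ≤
        C * (X : ℝ) ^ (7 / 8 : ℝ)) ∧
    -- (4) the values at the small primes can be those of the function `1`
    (∀ y : ℕ, ∃ g : ℕ → ℝ, (∀ n, g n = 1 ∨ g n = -1) ∧
      (∀ m n, 1 ≤ m → 1 ≤ n → g (m * n) = g m * g n) ∧ (∀ p : ℕ, p.Prime → p ≤ y → g p = 1) ∧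
      MomentLaw g) ∧
    -- (5) the exponent `1/2` of the remainder is the true one in mean square (`k = 1`)
    (∃ c : ℝ, 0 < c ∧ ∃ X0 : ℕ, ∀ ε : ℤ, (ε = 1 ∨ ε = -1) → ∀ X N : ℕ, X0 ≤ X → X ^ 5 ≤ N →
      c * X ≤ ∫ ω, (∑ n ∈ family ε X, truncated ε N (chi ω) n -
        3 / Real.pi ^ 2 * X * B 1 N) ^ 2 ∂coins) := by
  have hFDD := Pool.Agent.Q153.FM.Fdd.t_FDD Pool.Agent.Q153.FM.Lim.t_LIM
  have krm : S_KRM := Pool.Agent.Q148.TQ.t_KRM
  have dv : S_DIV := Pool.Agent.Q148.TQ.t_DIV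
  have vp : S_VP := Pool.Agent.Q148.TQ.t_VP
  have bbu : S_BBU := Pool.Agent.Q208.TQ.bbu
  have bbl : S_BBL := Pool.Agent.Q251.TQ.bbl
  have mmb : S_MMB := Pool.Agent.Q208.TQ.mmb bbu bbl vp
  have cnt : S_CNT := Pool.Agent.Q208.TQ.cnt (Pool.Agent.Q251.TQ.cl8 Pool.Agent.Q210.TQ.task_SQM)
  have dgm : S_DGM := Pool.Agent.Q251.TQ.dgm cnt vp dv bbu
  have tal : S_TAL := Pool.Agent.Q148.TQ.t_TAL
  have lsk : S_LSK := Pool.Agent.Q38.TQ.lsk Pool.Agent.Q210.TQ.task_PVI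
    Pool.Agent.Q210.TQ.task_HBD Pool.Agent.Q210.TQ.task_SQM dv
  have afe : S_AFE := Pool.Agent.Q150.TQ.afe vp Pool.Agent.Q153.FM.t_REP hFDD
  have q1m : S_Q1M := Pool.Agent.Q275.TQ.t_Q1M Pool.Agent.Q275.TQ.t_HH vp
  have low : S_LOW := Pool.Agent.Q26.TQ.low'
  have sm : S_SUM := Pool.Agent.Q208.TQ.sumS lsk Pool.Agent.Q148.TQ.t_RED
    Pool.Agent.Q148.TQ.t_TWO dv
  have aec : S_AEC := t_AEC sm krm dv
  have hlaw := ae_finite (ae_law aec dgm vp tal)
  have hch : ∀ ω : ℕ → Bool, Pool.Agent.Q163.GC.ch ω = chi ω := fun ω => funext fun n => ch_eq ω n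
  have hae : ∀ᵐ ω ∂coins, ∀ ω' : ℕ → Bool, {p | ω' p ≠ ω p}.Finite → MomentLaw (chi ω') := by
    filter_upwards [hlaw] with ω hω ω' hf
    rw [← hch]
    exact law_of (hω ω' hf)
  have hfdd := hFDD.1
  refine ⟨?_, hae, ?_, ?_, ?_, ?_⟩
  · intro ε hε n hn hf
    refine ⟨?_, afe ε hε n hn hf⟩
    refine hfdd (ε * (n : ℤ)) hf ?_
    intro h1
    have h2 := natAbs_mul hε n
    rw [h1] at h2
    simp at h2
    omega
  · intro k hk
    obtain ⟨c1, C1, hc1, hC1, h1⟩ := mmb k hk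
    obtain ⟨C2, hC2, h2⟩ := bbu k hk
    obtain ⟨c3, hc3, h3⟩ := bbl k hk
    refine ⟨min c1 c3, max C1 C2, lt_min hc1 hc3, lt_max_of_lt_left hC1, ?_, ?_⟩
    · intro ε hε X hX
      obtain ⟨h4, h5⟩ := h1 ε hε X hX
      have hX1 : (1 : ℝ) ≤ X := by
        have : 1 ≤ X := by omega
        exact_mod_cast this
      have hl : 0 ≤ Real.log X := Real.log_nonneg hX1
      constructor
      · refine le_trans ?_ h4
        refine mul_le_mul_of_nonneg_right ?_ (by positivity)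
        exact mul_le_mul_of_nonneg_right (min_le_left _ _) (by linarith)
      · refine h5.trans ?_
        refine mul_le_mul_of_nonneg_right ?_ (by positivity)
        exact mul_le_mul_of_nonneg_right (le_max_left _ _) (by linarith)
    · intro N hN
      have hN1 : (1 : ℝ) ≤ N := by
        have : 1 ≤ N := by omega
        exact_mod_cast this
      have hl : 0 ≤ Real.log N := Real.log_nonneg hN1
      constructor
      · refine le_trans ?_ (h3 N hN)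
        exact mul_le_mul_of_nonneg_right (min_le_right _ _) (by positivity)
      · refine le_trans ?_ ((h2 N hN).trans
          (mul_le_mul_of_nonneg_right (le_max_right C1 C2) (by positivity)))
        unfold B squareTuples
        refine sum_le_sum fun t ht => ?_
        refine div_le_div_of_nonneg_right ?_ (Real.sqrt_nonneg _)
        unfold h
        refine prod_le_one (fun p _ => by positivity) fun p _ => ?_
        rw [div_le_one (by positivity)]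
        linarith
  · obtain ⟨C, _, h1⟩ := q1m
    exact ⟨C, h1⟩
  · intro y
    have : IsProbabilityMeasure coins := by
      unfold coins
      infer_instance
    obtain ⟨ω, hω⟩ := hae.exists
    set ω' : ℕ → Bool := fun p => if p ≤ y then true else ω p with hω'
    have h1 := hω ω' (by
      refine (Set.finite_Iic y).subset fun p hp => ?_
      by_contra hc
      simp only [Set.mem_Iic] at hc
      exact hp (by rw [hω']; simp [hc]))
    refine ⟨chi ω', ?_, ?_, ?_, h1⟩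
    · intro n
      have := Pool.Agent.Q163.GC.abs_ch ω' n
      rw [ch_eq] at this
      exact (abs_eq zero_le_one).1 this
    · intro m n hm hn
      rw [← ch_eq, ← ch_eq, ← ch_eq]
      exact Pool.Agent.Q163.GC.ch_mul ω' (by omega) (by omega)
    · intro p hp hpy
      unfold chi
      rw [hp.primeFactors, Finset.prod_singleton, hp.factorization_self, pow_one, hω', if_pos]
      simp [hpy]
  · obtain ⟨c, hc, X0, h1⟩ := low
    refine ⟨c, hc, X0, fun ε hε X N hX hN => ?_⟩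
    have h2 := h1 ε hε X N hX hN (3 / Real.pi ^ 2 * X * B 1 N)
    simp_rw [ch_eq] at h2
    exact h2

end

end Pool.Agent.Results.MP_ea46f5_nt.AlmostEveryTwist
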