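import Pool.Agent.Q122.EX.All

set_option autoImplicit false

/-!
# Extreme values of `L(1/2, χ_d)` in almost all short intervals

For all `(log X)^A ≤ H ≤ X` and each sign, all but `X / H^δ` of the intervals `(x, x+H]`, `x ≤ X`,
contain a fundamental discriminant `d = ± n` with
`L(1/2, χ_d) ≥ c (log X) exp(c √(log H / log log H))`.
-/

namespace Pool.Agent.Results.MP_ea46f5_nt.ExtremeValuesShortIntervals

open Finset Filter Topology

noncomputable section

/-- `(D/2)` for a fundamental discriminant `D`: `1`, `-1`, `0` for `D ≡ 1`, `5` modulo `8`,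
`D` even -/
def kr2 (D : ℤ) : ℤ := if D % 8 = 1 then 1 else if D % 8 = 5 then -1 else 0

/-- the Kronecker symbol `(D/n)`, `n ≥ 1`, for a fundamental discriminant `D` -/
def kron (D : ℤ) (n : ℕ) : ℤ :=
  kr2 D ^ (n.factorization 2) * jacobiSym D (n / 2 ^ (n.factorization 2))

/-- fundamental discriminants (with `1`) -/
def IsFund (D : ℤ) : Prop :=
  (D % 4 = 1 ∧ Squarefree D) ∨
    ∃ m : ℤ, D = 4 * m ∧ (m % 4 = 2 ∨ m % 4 = 3) ∧ Squarefree m

/-- `L(1/2, χ_D)`, the limit of the partial sums of `∑ (D/n) n^{-1/2}` -/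
def LHalf (D : ℤ) : ℝ :=
  limUnder atTop (fun N : ℕ => ∑ n ∈ Icc 1 N, (kron D n : ℝ) / Real.sqrt n)

open Classical in
theorem result :
    -- the partial sums of the series of `L(1/2, χ_D)` converge
    (∀ D : ℤ, IsFund D → D ≠ 1 →
      Tendsto (fun N : ℕ => ∑ n ∈ Icc 1 N, (kron D n : ℝ) / Real.sqrt n) atTop (𝓝 (LHalf D))) ∧
    -- large central values in almost all windows
    (∃ (c δ : ℝ) (A X0 : ℕ), 0 < c ∧ 0 < δ ∧
      ∀ ε : ℤ, (ε = 1 ∨ ε = -1) → ∀ X H : ℕ, X0 ≤ X → Real.log X ^ A ≤ H → H ≤ X →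
      (((Icc 1 X).filter (fun x => ¬ ∃ n ∈ Ioc x (x + H), IsFund (ε * n) ∧
        c * Real.log X * Real.exp (c * Real.sqrt (Real.log H / Real.log (Real.log H))) ≤
          LHalf (ε * n))).card : ℝ) ≤ X / (H : ℝ) ^ δ) := by
  refine ⟨Pool.Agent.Q122.FM.fdd.1, ?_⟩
  obtain ⟨c, δ, A, X0, hc, hδ, h⟩ := Pool.Agent.Q122.EX.ex
  refine ⟨c, δ, A, X0, hc, hδ, ?_⟩
  intro ε hε X H hX hH hHX
  refine le_trans ?_ (h ε hε X H hX hH hHX)
  have : (Icc 1 X).filter (fun x => ¬ ∃ n ∈ Ioc x (x + H), IsFund (ε * n) ∧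
        c * Real.log X * Real.exp (c * Real.sqrt (Real.log H / Real.log (Real.log H))) ≤
          LHalf (ε * n)) ⊆ (Icc 1 X).filter (fun x => ∀ n ∈ Ioc x (x + H),
        Pool.Agent.Q122.FM.IsFund (ε * n) → Pool.Agent.Q122.FM.LHalf (ε * n) <
    c * Real.log X * Real.exp (c * Real.sqrt (Real.log H / Real.log (Real.log H)))) := by
    intro x hx
    rw [mem_filter] at hx ⊢
    refine ⟨hx.1, ?_⟩
    intro n hn hf
    by_contra hlt
    exact hx.2 ⟨n, hn, hf, not_lt.1 hlt⟩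
  exact_mod_cast card_le_card this

end

end Pool.Agent.Results.MP_ea46f5_nt.ExtremeValuesShortIntervals
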