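import Pool.Agent.Q122.FM.COR
import Pool.Agent.Q122.FM.LS1c
import Pool.Agent.Q122.FM.NS
import Pool.Agent.Q176.FM.LSD
import Pool.Agent.Q176.FM.BLK
import Pool.Agent.Q275.FM.LS3
import Pool.Agent.Q275.FM.HW
import Pool.Agent.Q275.FM.KS
import Pool.Agent.Q275.FM.WS
import Pool.Agent.Q275.FM.IGF
import Pool.Agent.Q275.FM.KER
import Pool.Agent.Q153.FM.J1
import Pool.Agent.Q275.FM.RA
import Pool.Agent.Q153.FM.J2
import Pool.Agent.Q275.FM.LMI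
import Pool.Agent.Q275.FM.SQH
import Pool.Agent.Q153.FM.Sq
import Pool.Agent.Q153.FM.Rep
import Pool.Agent.Q275.FM.FRZ
import Pool.Agent.Q176.FM.WA1
import Pool.Agent.Q176.FM.WA2
import Pool.Agent.Q275.FM.CONS
import Pool.Agent.Q153.FM.Lim
import Pool.Agent.Q153.FM.Fdd

set_option autoImplicit false

/-!
# The first moment of quadratic Dirichlet `L`-functions in almost all very short intervals

The case `k = 1` of the conjecture of Conrey, Farmer, Keating, Rubinstein and Snaith, with the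
full polynomial `Q_±(1, x)`, for almost all intervals `(x, x + H]`, as soon as `H/(log x)` tends
to infinity a little faster than `(log log x)^6`.
-/

namespace Pool.Agent.Results.MP_ea46f5_nt.FirstMomentShortIntervals

open Finset Filter Topology

noncomputable section

/-- `(D/2)` for a fundamental discriminant `D`: `1`, `-1`, `0` for `D ≡ 1`, `5` modulo `8`,
`D` even -/
def kr2 (D : ℤ) : ℤ := if D % 8 = 1 then 1 else if D % 8 = 5 then -1 else 0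

/-- the Kronecker symbol `(D/n)`, `n ≥ 1`, for a fundamental discriminant `D` -/
def kron (D : ℤ) (n : ℕ) : ℤ :=
  kr2 D ^ (n.factorization 2) * jacobiSym D (n / 2 ^ (n.factorization 2))

/-- fundamental discriminants (with `1`) -/
def IsFund (D : ℤ) : Prop :=
  (D % 4 = 1 ∧ Squarefree D) ∨
    ∃ m : ℤ, D = 4 * m ∧ (m % 4 = 2 ∨ m % 4 = 3) ∧ Squarefree m

/-- `L(1/2, χ_D)`, the limit of the partial sums of `∑ (D/n) n^{-1/2}` -/
def LHalf (D : ℤ) : ℝ :=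
  limUnder atTop (fun N : ℕ => ∑ n ∈ Icc 1 N, (kron D n : ℝ) / Real.sqrt n)

open Classical in
/-- sum of `L(1/2, χ_D)` over the fundamental discriminants `D = ε n`, `x < n ≤ x + H` -/
def windowSum (ε : ℤ) (x H : ℕ) : ℝ :=
  ∑ n ∈ Ioc x (x + H), if IsFund (ε * n) then LHalf (ε * n) else 0

/-- `Γ'/Γ ((1/2 + a)/2) - log π`, the value at `1/2` of `-𝔛'/𝔛(s, a)` -/
def lam (a : ℕ) : ℝ :=
  deriv Real.Gamma ((1 / 2 + (a : ℝ)) / 2) / Real.Gamma ((1 / 2 + (a : ℝ)) / 2) -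
    Real.log Real.pi

/-- `A_1(0) = ∏_p (1 - 1/(p(p+1)))` -/
def P1 : ℝ := ∏' p : Nat.Primes, (1 - 1 / (((p : ℕ) : ℝ) * (((p : ℕ) : ℝ) + 1)))

/-- `A_1'(0)/(2 A_1(0)) = ∑_p log p/(p² + p - 1)` -/
def Lp : ℝ := ∑' p : Nat.Primes,
  Real.log ((p : ℕ) : ℝ) / (((p : ℕ) : ℝ) ^ 2 + ((p : ℕ) : ℝ) - 1)

/-- the polynomial `Q_±(1, x)` of the conjecture; `a = 0` for `+`, `a = 1` for `-` -/
def Q1 (a : ℕ) (x : ℝ) : ℝ :=
  P1 * ((x + lam a) / 2 + 2 * Real.eulerMascheroniConstant + 2 * Lp)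

/-- the main term `(3/π²) ∫_x^{x+H} Q_±(1, log t) dt` -/
def mainTerm (ε : ℤ) (x H : ℕ) : ℝ :=
  3 / Real.pi ^ 2 * ∫ t in (x : ℝ)..((x : ℝ) + H), Q1 (if ε = 1 then 0 else 1) (Real.log t)

theorem result :
    -- the partial sums of the series of `L(1/2, χ_D)` converge
    (∀ D : ℤ, IsFund D → D ≠ 1 →
      Tendsto (fun N : ℕ => ∑ n ∈ Icc 1 N, (kron D n : ℝ) / Real.sqrt n) atTop (𝓝 (LHalf D))) ∧
    -- the mean error in the windows of length `H ≥ log X`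
    (∃ C : ℝ, 0 < C ∧ ∀ ε : ℤ, (ε = 1 ∨ ε = -1) → ∀ X H : ℕ, 3 ≤ X → Real.log X ≤ H → H ≤ X →
      ∑ x ∈ Icc 1 X, |windowSum ε x H - mainTerm ε x H| ≤
        C * X * H * (Real.log X ^ (7 / 6 : ℝ) * Real.log (Real.log X) /
          (min (H : ℝ) ((X : ℝ) ^ (1 / 4 : ℝ))) ^ (1 / 6 : ℝ))) ∧
    -- the number of exceptional windows
    (∃ C : ℝ, 0 < C ∧ ∀ ε : ℤ, (ε = 1 ∨ ε = -1) → ∀ δ : ℝ, 0 < δ → ∀ X H : ℕ, 3 ≤ X →
      Real.log X ≤ H → H ≤ X →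
      (((Icc 1 X).filter
        (fun x => δ * H * Real.log X < |windowSum ε x H - mainTerm ε x H|)).card : ℝ) ≤
        C / δ * X * (Real.log X ^ (1 / 6 : ℝ) * Real.log (Real.log X) /
          (min (H : ℝ) ((X : ℝ) ^ (1 / 4 : ℝ))) ^ (1 / 6 : ℝ))) ∧
    -- the asymptotic formula in almost all windows
    (∀ ε : ℤ, (ε = 1 ∨ ε = -1) → ∀ h : ℕ → ℕ, (∀ X, h X ≤ X) →
      Tendsto (fun X : ℕ => (h X : ℝ) / (Real.log X * Real.log (Real.log X) ^ 6)) atTop atTop →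
      ∀ δ : ℝ, 0 < δ → Tendsto (fun X : ℕ => (((Icc 1 X).filter (fun x =>
        δ * |mainTerm ε x (h X)| < |windowSum ε x (h X) - mainTerm ε x (h X)|)).card : ℝ) / X)
        atTop (𝓝 0)) := by
  have lsd := Pool.Agent.Q176.FM.t_LSD
  have blk := Pool.Agent.Q176.FM.t_BLK lsd
  have ls3 := Pool.Agent.Q275.FM.t_LS3 blk
  have ls1 := Pool.Agent.Q122.FM.t_LS1 ls3 Pool.Agent.Q275.FM.t_HW Pool.Agent.Q275.FM.t_KS
    Pool.Agent.Q275.FM.t_WS
  have igf := Pool.Agent.Q275.FM.t_IGF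
  have ker := Pool.Agent.Q275.FM.t_KER igf
  have j1 := Pool.Agent.Q153.FM.t_J1 ls1 ker
  have j2 := Pool.Agent.Q153.FM.t_J2 ls1 ker Pool.Agent.Q275.FM.t_RA
  have sq := Pool.Agent.Q153.FM.Sq.t_SQ Pool.Agent.Q275.FM.t_SQH Pool.Agent.Q275.FM.t_LMI
  have rep := Pool.Agent.Q153.FM.t_REP
  have frz := Pool.Agent.Q275.FM.t_FRZ igf ker
  have ns := Pool.Agent.Q122.FM.t_NS j1 j2
  have cls := Pool.Agent.Q122.FM.t_CLS ns sq rep frz Pool.Agent.Q176.FM.t_WA1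
    Pool.Agent.Q176.FM.t_WA2
  have fdd := Pool.Agent.Q153.FM.Fdd.t_FDD Pool.Agent.Q153.FM.Lim.t_LIM
  have med := Pool.Agent.Q122.FM.t_MED cls Pool.Agent.Q275.FM.t_CON fdd
  have fin := Pool.Agent.Q122.FM.t_FIN med fdd
  exact ⟨fin.1, fin.2, Pool.Agent.Q122.FM.cor_markov fin, Pool.Agent.Q122.FM.cor_ratio fin⟩

end

end Pool.Agent.Results.MP_ea46f5_nt.FirstMomentShortIntervals
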