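import Pool.Agent.Q122.MB.All

set_option autoImplicit false

/-!
# Lower bounds of the conjectured order for all moments of `L(1/2, χ_d)` in short intervals

For every `k ≥ 1` and `ε₀ > 0` the `k`-th moment of `|L(1/2, χ_d)|` over the fundamental
discriminants `d = ± n`, `x < n ≤ x + H`, is at least `c H (log X)^(k(k+1)/2)`, for all
`x ≤ X` with at most `X^(1-δ)` exceptions, as soon as `X^ε₀ ≤ H ≤ X`.
-/

namespace Pool.Agent.Results.MP_ea46f5_nt.MomentLowerBoundsShortIntervals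

open Finset Filter Topology

noncomputable section

/-- `(D/2)` for a fundamental discriminant `D`: `1`, `-1`, `0` for `D ≡ 1`, `5` modulo `8`,
`D` even -/
def kr2 (D : ℤ) : ℤ := if D % 8 = 1 then 1 else if D % 8 = 5 then -1 else 0

/-- the Kronecker symbol `(D/n)`, `n ≥ 1`, for a fundamental discriminant `D` -/
def kron (D : ℤ) (n : ℕ) : ℤ :=
  kr2 D ^ (n.factorization 2) * jacobiSym D (n / 2 ^ (n.factorization 2))

/-- fundamental discriminants (with `1`) -/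
def IsFund (D : ℤ) : Prop :=
  (D % 4 = 1 ∧ Squarefree D) ∨
    ∃ m : ℤ, D = 4 * m ∧ (m % 4 = 2 ∨ m % 4 = 3) ∧ Squarefree m

/-- `L(1/2, χ_D)`, the limit of the partial sums of `∑ (D/n) n^{-1/2}` -/
def LHalf (D : ℤ) : ℝ :=
  limUnder atTop (fun N : ℕ => ∑ n ∈ Icc 1 N, (kron D n : ℝ) / Real.sqrt n)

open Classical in
/-- sum of `|L(1/2, χ_D)|^k` over the fundamental discriminants `D = ε n`, `x < n ≤ x + H` -/
def windowMoment (ε : ℤ) (k x H : ℕ) : ℝ :=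
  ∑ n ∈ Ioc x (x + H), if IsFund (ε * n) then |LHalf (ε * n)| ^ k else 0

theorem result :
    -- the partial sums of the series of `L(1/2, χ_D)` converge
    (∀ D : ℤ, IsFund D → D ≠ 1 →
      Tendsto (fun N : ℕ => ∑ n ∈ Icc 1 N, (kron D n : ℝ) / Real.sqrt n) atTop (𝓝 (LHalf D))) ∧
    -- lower bounds for the moments in almost all windows
    (∀ k : ℕ, 1 ≤ k → ∀ ε0 : ℝ, 0 < ε0 → ∃ c δ : ℝ, 0 < c ∧ 0 < δ ∧ ∃ X0 : ℕ,
      ∀ ε : ℤ, (ε = 1 ∨ ε = -1) → ∀ X H : ℕ, X0 ≤ X → (X : ℝ) ^ ε0 ≤ H → H ≤ X →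
      (((Icc 1 X).filter (fun x => windowMoment ε k x H <
        c * H * Real.log X ^ (k * (k + 1) / 2))).card : ℝ) ≤ (X : ℝ) ^ (1 - δ)) :=
  ⟨Pool.Agent.Q122.FM.fdd.1, Pool.Agent.Q122.MB.mb⟩

end

end Pool.Agent.Results.MP_ea46f5_nt.MomentLowerBoundsShortIntervals
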